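import Pool.Agent.Y120.R.XY

/-!
# Period relations of bounded degree in arbitrary one-parameter families

Let `P(x)` be period functions (for example all entries of a period matrix) of a family over an open part of the line
near `x = 0`: polynomials with arbitrary complex coefficients in `log x` and in G-functions `h_j(x)` over `ℚ`. For
almost all integers `t` every relation of degree `≤ δ` over a number field of degree `≤ D` between the periods at
`x = 1 / t` is the specialisation of a functional relation over the number field.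
-/

set_option autoImplicit false

open PowerSeries

namespace Pool.Agent.Results.MP_cbf1af_ag.AllFamilies

/-- an integer polynomial as a power series with rational coefficients -/
noncomputable def toQ (P : Polynomial ℤ) : PowerSeries ℚ := ((P.map (Int.castRingHom ℚ) : Polynomial ℚ) : PowerSeries ℚ)

/-- the power series `P(u^e)` -/
noncomputable def atPow (e : ℕ) (P : Polynomial ℤ) : PowerSeries ℂ :=
  ((Polynomial.expand ℂ e (P.map (Int.castRingHom ℂ)) : Polynomial ℂ) : PowerSeries ℂ)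

/-- the matrices `G_s` over `ℤ[x]` with `T^s y^(s) = G_s y` for all solutions `y` of `T y' = A y` -/
noncomputable def iter {r : ℕ} (T : Polynomial ℤ) (A : Fin r → Fin r → Polynomial ℤ) : ℕ → Fin r → Fin r → Polynomial ℤ
  | 0 => fun i j => if i = j then 1 else 0
  | s + 1 => fun i j => T * Polynomial.derivative (iter T A s i j) + ∑ l, iter T A s i l * A l j -
      (s : Polynomial ℤ) * (Polynomial.derivative T * iter T A s i j)

/-- The system `T y' = A y` has a fundamental matrix of solutions of the form `u^(-M) ∑_n Φ_n(u) (log u)^n` with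
`u^e = x` and convergent power series `Φ_n`: the point `0` is regular or a regular singularity with rational
exponents. -/
def QuasiUnipotent {r : ℕ} (T : Polynomial ℤ) (A : Fin r → Fin r → Polynomial ℤ) : Prop :=
  ∃ (e M : ℕ) (K : ℝ) (Φ : Matrix (Fin r) (Fin r) (Polynomial (PowerSeries ℂ))), 1 ≤ e ∧ Φ.det ≠ 0 ∧
    (∀ i j n m, ‖coeff m ((Φ i j).coeff n)‖ ≤ K ^ (m + 1)) ∧
    ∀ i j n, atPow e T * (X * PowerSeries.derivative ℂ ((Φ i j).coeff n) +
        ((n : PowerSeries ℂ) + 1) * (Φ i j).coeff (n + 1) - (M : PowerSeries ℂ) * (Φ i j).coeff n) =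
      (e : PowerSeries ℂ) * X ^ e * ∑ l, atPow e (A i l) * (Φ l j).coeff n

/-- `h_1, ..., h_r` are G-functions with rational coefficients which solve the differential system `T y' = A y`, with
the conditions of Siegel and Galochkin, and `0` is a regular point or a regular singularity with rational exponents of
the system. -/
structure GFamily {r : ℕ} (T : Polynomial ℤ) (A : Fin r → Fin r → Polynomial ℤ) (h : Fin r → PowerSeries ℚ) : Prop where
  /-- the denominator is not zero -/
  T_ne : T ≠ 0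
  /-- the differential equations -/
  ode : ∀ i, toQ T * PowerSeries.derivative ℚ (h i) = ∑ j, toQ (A i j) * h j
  /-- the coefficients have geometric growth -/
  size : ∃ C : ℝ, ∀ i m, |((coeff m (h i) : ℚ) : ℝ)| ≤ C ^ (m + 1)
  /-- the common denominators of the coefficients have geometric growth -/
  den : ∃ C : ℝ, ∀ m : ℕ, ∃ d : ℕ, 0 < d ∧ (d : ℝ) ≤ C ^ (m + 1) ∧ ∀ i, ∀ j ≤ m, ∃ a : ℤ, (d : ℚ) * coeff j (h i) = a
  /-- Galochkin's condition: the common denominators of the matrices `G_s / s!` have geometric growth -/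
  galochkin : ∃ C : ℝ, ∀ m : ℕ, ∃ d : ℕ, 0 < d ∧ (d : ℝ) ≤ C ^ (m + 1) ∧ ∀ s ≤ m, ∀ i j,
    ∃ H : Polynomial ℤ, (d : Polynomial ℤ) * iter T A s i j = (s.factorial : Polynomial ℤ) * H
  /-- the local exponents at `0` are rational and the singularity is regular -/
  regular : QuasiUnipotent T A

section
variable {k : ℕ} {r n : Fin k → ℕ}

/-- The values of the period functions at the real points `x_i = 1 / s_i`: the `j`-th period function of the `i`-th
family is the polynomial `q i j` in `log s_i` and in the `h_{i,l}(1 / s_i)`. -/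
noncomputable def per (h : ∀ i, Fin (r i) → PowerSeries ℚ) (q : ∀ i, Fin (n i) → MvPolynomial (Option (Fin (r i))) ℂ)
    (s : Fin k → ℝ) (v : Σ i, Fin (n i)) : ℂ :=
  MvPolynomial.aeval (fun o : Option (Fin (r v.1)) => o.elim ((Real.log (s v.1) : ℝ) : ℂ)
    fun l => ((∑' m : ℕ, ((coeff m (h v.1 l) : ℚ) : ℝ) * (1 / s v.1) ^ m : ℝ) : ℂ)) (q v.1 v.2)

/-- `R(x, P(x)) = 0` for all small `x_1, ..., x_k > 0`, where `P` are the period functions -/
def IsFunctional (h : ∀ i, Fin (r i) → PowerSeries ℚ) (q : ∀ i, Fin (n i) → MvPolynomial (Option (Fin (r i))) ℂ)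
    {K : IntermediateField ℚ ℂ} (R : MvPolynomial (Σ i, Fin (n i)) (MvPolynomial (Fin k) K)) : Prop :=
  ∃ τ : ℝ, ∀ s : Fin k → ℝ, (∀ i, τ < s i) →
    MvPolynomial.eval₂ (MvPolynomial.eval₂Hom (algebraMap K ℂ) fun i => 1 / (s i : ℂ)) (per h q s) R = 0

theorem iter_eq {r : ℕ} (T : Polynomial ℤ) (A : Fin r → Fin r → Polynomial ℤ) (s : ℕ) :
    iter T A s = Pool.Agent.Y120.GH.itm T A s := by
  induction s with
  | zero => rfl
  | succ s ih =>
    funext i j
    rw [iter, Pool.Agent.Y120.GH.itm, ih]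

theorem qu_eq {r : ℕ} {T : Polynomial ℤ} {A : Fin r → Fin r → Polynomial ℤ} (h : QuasiUnipotent T A) :
    Pool.Agent.Y120.GH.QU0 T A := by
  obtain ⟨e, M, K, Φ, he, hdet, hc, heq⟩ := h
  have he0 : e ≠ 0 := by omega
  refine ⟨e, he0, M, K, Φ, hc, fun i j n => ?_, hdet⟩
  have h1 := heq i j n
  simp only [atPow] at h1
  rw [Pool.Agent.Y120.GH.expand_poly he0]
  simp only [Pool.Agent.Y120.GH.expand_poly he0]
  exact h1

theorem fam {r : ℕ} {T : Polynomial ℤ} {A : Fin r → Fin r → Polynomial ℤ} {h : Fin r → PowerSeries ℚ}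
    (hG : GFamily T A h) (δ : ℕ) : Pool.Agent.Y120.R.Fam δ h :=
  ⟨hG.size, Pool.Agent.Y120.GH.family_main hG.T_ne hG.ode hG.size hG.den (by
    obtain ⟨C, hC⟩ := hG.galochkin
    refine ⟨C, fun m => ?_⟩
    obtain ⟨d, h1, h2, h3⟩ := hC m
    refine ⟨d, h1, h2, fun s hs i' j' => ?_⟩
    rw [← iter_eq]
    exact h3 s hs i' j') (qu_eq hG.regular) δ⟩

theorem pv_eq (h : ∀ i, Fin (r i) → PowerSeries ℚ) (q : ∀ i, Fin (n i) → MvPolynomial (Option (Fin (r i))) ℂ)
    (s : Fin k → ℝ) : Pool.Agent.Y120.R.pv q h s = per h q s := by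
  funext v
  unfold Pool.Agent.Y120.R.pv Pool.Agent.Y120.R.pf per
  rw [MvPolynomial.aeval_rename]
  have h1 : (Pool.Agent.Y120.R.vp h s ∘ fun o : Option (Fin (r v.1)) => (⟨v.1, o⟩ : Σ i, Option (Fin (r i)))) =
      fun o : Option (Fin (r v.1)) => o.elim ((Real.log (s v.1) : ℝ) : ℂ)
        fun l => ((∑' m : ℕ, ((coeff m (h v.1 l) : ℚ) : ℝ) * (1 / s v.1) ^ m : ℝ) : ℂ) := by
    funext o
    rcases o with _ | l
    · rfl
    · rfl
  rw [h1]

end

/-- Let `h_i = (h_{i,1}, ..., h_{i,r_i})`, `1 ≤ i ≤ k`, be families of G-functions over `ℚ`. There are `c > 0` and `C`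
such that for all period functions `q i j` (polynomials of degree `≤ e` in `log x_i` and `h_{i,l}(x_i)` with arbitrary
complex coefficients), all number fields `K ⊂ ℂ` of degree `≤ D`, all boxes `∏ (x_i, x_i + N]` and all but
`C N^(k-1) ∑_i (1 + N / (x_i + N)^c)` integral points `t` of the box: every polynomial `F` of degree `≤ δ` over `K`
which vanishes at the values of all period functions at the points `x_i = 1 / t_i` is the specialisation at
`x_i = 1 / t_i` of a polynomial `R` of degree `≤ δ` over `K[x_1, ..., x_k]` which vanishes at the period functions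
identically. -/
theorem result (k δ e D : ℕ) (r n : Fin k → ℕ) (T : Fin k → Polynomial ℤ) (A : ∀ i, Fin (r i) → Fin (r i) → Polynomial ℤ)
    (h : ∀ i, Fin (r i) → PowerSeries ℚ) (hG : ∀ i, GFamily (T i) (A i) (h i)) :
    ∃ c C : ℝ, 0 < c ∧ 0 ≤ C ∧ ∀ q : ∀ i, Fin (n i) → MvPolynomial (Option (Fin (r i))) ℂ,
    (∀ i j, (q i j).totalDegree ≤ e) → ∀ K : IntermediateField ℚ ℂ, FiniteDimensional ℚ K → Module.finrank ℚ K ≤ D →
    ∀ (x : Fin k → ℕ) (N : ℕ), 1 ≤ N →
    (({t : Fin k → ℕ | (∀ i, x i < t i ∧ t i ≤ x i + N) ∧ ∃ F : MvPolynomial (Σ i, Fin (n i)) K, F.totalDegree ≤ δ ∧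
      MvPolynomial.aeval (per h q fun i => (t i : ℝ)) F = 0 ∧
      ¬ ∃ R : MvPolynomial (Σ i, Fin (n i)) (MvPolynomial (Fin k) K), R.totalDegree ≤ δ ∧ IsFunctional h q R ∧
        MvPolynomial.map (MvPolynomial.eval fun i => 1 / (t i : K)) R = F}.ncard : ℕ) : ℝ) ≤
      C * (N : ℝ) ^ (k - 1) * ∑ i, (1 + N / ((x i : ℝ) + N) ^ c) := by
  classical
  obtain ⟨c, C, hc, hC, hmain⟩ := Pool.Agent.Y120.R.relY (n := n) δ e D fun i => fam (hG i) (δ * e)
  refine ⟨c, C, hc, hC, ?_⟩
  intro q hq K hKf hK x N hN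
  set E := {t : Fin k → ℕ | (∀ i, x i < t i ∧ t i ≤ x i + N) ∧ ∃ F : MvPolynomial (Σ i, Fin (n i)) K, F.totalDegree ≤ δ ∧
      MvPolynomial.aeval (per h q fun i => (t i : ℝ)) F = 0 ∧
      ¬ ∃ R : MvPolynomial (Σ i, Fin (n i)) (MvPolynomial (Fin k) K), R.totalDegree ≤ δ ∧ IsFunctional h q R ∧
        MvPolynomial.map (MvPolynomial.eval fun i => 1 / (t i : K)) R = F} with hE
  have hfin : E.Finite := by
    refine (Set.finite_Iic (fun i : Fin k => x i + N)).subset ?_
    intro t ht i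
    exact (ht.1 i).2
  rw [Set.ncard_eq_toFinset_card E hfin]
  refine hmain q hq K hK x N hN _ fun t ht => ?_
  have ht' : t ∈ E := hfin.mem_toFinset.1 ht
  obtain ⟨hbox, F, h1, h2, h3⟩ := ht'
  refine ⟨hbox, F, h1, ?_, ?_⟩
  · rw [pv_eq]
    exact h2
  · rintro ⟨R, hRd, ⟨τ, hRτ⟩, hRF⟩
    refine h3 ⟨R, hRd, ⟨τ, fun s hs => ?_⟩, hRF⟩
    rw [← pv_eq]
    exact hRτ s hs

end Pool.Agent.Results.MP_cbf1af_ag.AllFamilies
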