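import Pool.Agent.Y890.HE.Main

/-!
Relations over number fields between the periods of products of hyperelliptic curves with arbitrary branch points:
outside few hypersurfaces of the space of all branch points, of small degree, the relations of bounded degree and
height hold on the whole period torsor.
-/

namespace Pool.Agent.Results.MP_cbf1af_ag.AllHyperellipticCurves

open Filter Pool.Agent Pool.Agent.Y890.MV Pool.Agent.Y890.HE

/-- Let `n i` be even numbers (`i` in a finite nonempty set), `d` the sum of the `n i + 1`. For a point `e` of `Conf n`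
(branch points `e i r`, `r ≤ n i`, with increasing real parts) let `pm n e i` be the period matrix of
`y² = ∏ (x - e i r)`. Then `(pm n e, π)` is a point of `torsor n e`; the periods are analytic functions of `e`, and given
by the usual integrals for real `e`. There is `ω → ∞` such that for all large `T`, all number fields `K` of degree at
most `ω T` and all complex numbers `ξ a`, `a < ω T`: the points `e` of `Conf n` with coordinates in `K` of height at most
`T`, of norm at most `ω T` and at distance at least `1 / ω T` from the complement of `Conf n`, at which some relation of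
degree at most `ω T`, with coefficients in the integers of `K` of size at most `T ^ ω T`, between the periods and the
powers of `π` (`a`-th power, `a < ω T`) does not hold on `torsor n e`, or between the periods and the `ξ a` does not hold
at the `(Y, π)` in `torsor n e`, lie on at most `T ^ (1 / ω T)` hypersurfaces of degree at most `T ^ (1 / ω T)`; and
there are at most `T ^ (1 / ω T) * N ^ (d - 1)` of them, `N` being the number of elements of `K` of height at most
`T`. -/
theorem result {ι : Type} [Fintype ι] [DecidableEq ι] [Nonempty ι] (n : ι → ℕ) (hn : ∀ i, Even (n i)) :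
    (∀ e ∈ Conf n, (pm n e, (Real.pi : ℂ)) ∈ torsor n e) ∧
    (∀ (i : ι) (l j : Fin (n i)), AnalyticOnNhd ℂ (fun e => pm n e i l j) (Conf n)) ∧
    (∀ e : (Σ i, Fin (n i + 1)) → ℝ, (∀ i, StrictMono fun r => e ⟨i, r⟩) → ∀ (i : ι) (l j : Fin (n i)),
      pm n (fun q => (e q : ℂ)) i l j =
        ((∫ x in (e ⟨i, l.castSucc⟩)..(e ⟨i, l.succ⟩), x ^ (j : ℕ) / √|∏ r, (x - e ⟨i, r⟩)| : ℝ) : ℂ)) ∧
    ∃ (ω : ℝ → ℕ) (T₀ : ℝ), Tendsto ω atTop atTop ∧ Monotone ω ∧ ∀ T, T₀ ≤ T → 0 < ω T ∧
      ∀ (K : Type) [Field K] [NumberField K], Module.finrank ℚ K ≤ ω T → ∀ (io : K →+* ℂ) (ξ : Fin (ω T) → ℂ),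
        Y124.Cov ⌊T ^ ((ω T : ℝ)⁻¹)⌋₊ ⌊T ^ ((ω T : ℝ)⁻¹)⌋₊
          ((fun (e : (Σ i, Fin (n i + 1)) → K) j => io (e j)) '' Exceptional n (ω T) K io ξ T) ∧
        (Exceptional n (ω T) K io ξ T).Finite ∧
        ((Exceptional n (ω T) K io ξ T).ncard : ℝ) ≤
          T ^ ((ω T : ℝ)⁻¹) * ({x : K | Y120.HtLe K T x}.ncard : ℝ) ^ (Fintype.card (Σ i, Fin (n i + 1)) - 1) :=
  ⟨fun _ he => pm_mem hn he, pm_an, pm_real, main n hn⟩

end Pool.Agent.Results.MP_cbf1af_ag.AllHyperellipticCurves
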