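import Pool.Agent.Y124.TL.Fi
import Pool.Agent.Y119.J.Gen

/-!
# The transcendence degree of the periods of ALL k-tuples of fibres in short windows, near a degenerate fibre

Let `X → ℙ¹` be a family of varieties over `ℚ` with a degenerate fibre at `x = 0` (a cusp of the base) and with unipotent local
monodromy there. Its period matrix is `P(x) = Ω exp(N log x) Z(x)`, where `N` is the nilpotent residue of the Gauss-Manin
connection, the entries of `Z` and of `Z⁻¹` are G-functions with rational coefficients, `Z(0) = 1`, and `Ω` is the matrix of the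
periods of the limit mixed motive. We consider abstract systems `T (x Z' + N Z) = Z A` over `ℚ[x]` of this kind, and any
invertible complex matrix `Ω`. Let `rank Z` be the transcendence degree over `ℚ(x)` of the entries of `Z`; that of the
entries of `Z` and of `log x` is `rank Z + 1`.

For ALL `k`-tuples of integers `m_1, …, m_k` in a short interval `[M, M + M^c]` at distance at least `G` of each other the
transcendence degree, in degree at most `δ`, of the logarithms `log m_l` and of the entries of the matrices `P(1/m_1), …,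
P(1/m_k)` is at least `(k - 1) * (rank Z + 1)`, uniformly in `Ω`, in the number fields of degree at most `D` and in the bases;
and it is at least `k * (rank Z + 1) - (s + 1)` if the entries of `Ω` are algebraic over a field generated by `s` numbers.
In particular at least `(k - 1) * rank Z - 1`, respectively `k * rank Z - (s + 1)`, of the periods alone are independent.
-/

set_option autoImplicit false

open PowerSeries Module

namespace Pool.Agent.Results.MP_cbf1af_ag.AllTuplesDegenerating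

/-- an integer polynomial as a power series with rational coefficients -/
noncomputable def toQ (P : Polynomial ℤ) : PowerSeries ℚ := ((P.map (Int.castRingHom ℚ) : Polynomial ℚ) : PowerSeries ℚ)

/-- The arithmetic conditions in the definition of a G-function, for a power series with rational coefficients: geometric
growth of the coefficients and of their common denominators. -/
def GCond (g : ℚ⟦X⟧) : Prop := ∃ C : ℝ, (∀ m, |((coeff m g : ℚ) : ℝ)| ≤ C ^ (m + 1)) ∧
  ∀ m, ∃ d : ℕ, 0 < d ∧ (d : ℝ) ≤ C ^ (m + 1) ∧ ∀ j ≤ m, ∃ a : ℤ, (d : ℚ) * coeff j g = a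

/-- The matrix `Z(1/m)`. -/
noncomputable def val {n : ℕ} (Z : Matrix (Fin n) (Fin n) ℚ⟦X⟧) (m : ℕ) : Matrix (Fin n) (Fin n) ℂ :=
  Matrix.of fun i j => ((∑' a : ℕ, ((coeff a (Z i j) : ℚ) : ℝ) * (1 / (m : ℝ)) ^ a : ℝ) : ℂ)

/-- The matrix `P(x) = Ω exp(N log x) Z(x)` at `x = 1/m`. -/
noncomputable def periods {n : ℕ} (Ω : Matrix (Fin n) (Fin n) ℂ) (N : Matrix (Fin n) (Fin n) ℤ)
    (Z : Matrix (Fin n) (Fin n) ℚ⟦X⟧) (m : ℕ) : Matrix (Fin n) (Fin n) ℂ :=
  Ω * IsNilpotent.exp (-((Real.log m : ℝ) : ℂ) • N.map (Int.castRingHom ℂ)) * val Z m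

/-- The largest number of entries of `Z` which are algebraically independent over the polynomials in `x`, that is the
transcendence degree over `ℚ(x)` of the field generated by the entries of `Z`. -/
noncomputable def rank {n : ℕ} (Z : Matrix (Fin n) (Fin n) ℚ⟦X⟧) : ℕ :=
  sSup {d : ℕ | ∃ T : Fin d → Fin n × Fin n, AlgebraicIndependent (Polynomial ℚ) (fun i => Z (T i).1 (T i).2)}

/-- Some `r` of the numbers `L_1, …, L_k` and of the entries of the matrices `P_1, …, P_k` (at `r` different places) satisfy no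
nonzero polynomial relation of degree at most `δ` in each unknown with coefficients in `K`. -/
def TrdegGe {n k : ℕ} (r δ : ℕ) (K : IntermediateField ℚ ℂ) (L : Fin k → ℂ) (P : Fin k → Matrix (Fin n) (Fin n) ℂ) : Prop :=
  ∃ σ : Fin r → Fin k × Option (Fin n × Fin n), Function.Injective σ ∧
    ∀ Q : MvPolynomial (Fin r) K, (∀ i, Q.degreeOf i ≤ δ) →
      MvPolynomial.aeval (fun i => (σ i).2.elim (L (σ i).1) fun p => P (σ i).1 p.1 p.2) Q = 0 → Q = 0

/-- Conclusion of the theorem: for all `k`-tuples of integers in `[M, M + M^c]` at distance at least `G`, all number fields `K`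
of degree at most `D` and all changes of bases `R_l, S_l` over `K`, the transcendence degree of the numbers `log m_l` and of the
entries of the period matrices `R_l P(1/m_l) S_l` is at least `r` in degree at most `δ`. -/
def Bound {n : ℕ} (Ω : Matrix (Fin n) (Fin n) ℂ) (N : Matrix (Fin n) (Fin n) ℤ) (Z : Matrix (Fin n) (Fin n) ℚ⟦X⟧)
    (G k δ D r : ℕ) (c : ℝ) (M : ℕ) : Prop :=
  ∀ m : Fin k → ℕ, (∀ l, M ≤ m l ∧ (m l : ℝ) ≤ M + (M : ℝ) ^ c) → (∀ l l', l ≠ l' → (G : ℤ) ≤ |(m l : ℤ) - m l'|) →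
    ∀ (K : IntermediateField ℚ ℂ) [FiniteDimensional ℚ K], finrank ℚ K ≤ D → ∀ R S : Fin k → (Matrix (Fin n) (Fin n) K)ˣ,
      TrdegGe r δ K (fun l => ((Real.log (m l) : ℝ) : ℂ)) fun l => (R l : Matrix (Fin n) (Fin n) K).map (algebraMap K ℂ) *
        periods Ω N Z (m l) * (S l : Matrix (Fin n) (Fin n) K).map (algebraMap K ℂ)

/-- the family of the entries of `Z` -/
theorem gf {n : ℕ} (T : Polynomial ℤ) (A : Matrix (Fin n) (Fin n) (Polynomial ℤ)) (N : Matrix (Fin n) (Fin n) ℤ)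
    (Z W : Matrix (Fin n) (Fin n) ℚ⟦X⟧) (hT : T ≠ 0) (hN : N ^ n = 0)
    (hode : ∀ i j, toQ T * (X * PowerSeries.derivative ℚ (Z i j) + ∑ k, C (N i k : ℚ) * Z k j) = ∑ k, Z i k * toQ (A k j))
    (hZ0 : ∀ i j, coeff 0 (Z i j) = if i = j then 1 else 0) (hW : W * Z = 1)
    (hGZ : ∀ i j, GCond (Z i j)) (hGW : ∀ i j, GCond (W i j)) :
    Pool.Agent.Y124.TL.GF (Polynomial.X * T)
      (fun a c => Pool.Agent.Y119.HZ.A3 T (fun i k => A k i) (fun i j => N j i) (Pool.Agent.Y119.HZ.ix n a) (Pool.Agent.Y119.HZ.ix n c))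
      (fun a => Z (Pool.Agent.Y119.HZ.ix n a).2 (Pool.Agent.Y119.HZ.ix n a).1) := by
  have hG : ∀ g : ℚ⟦X⟧, GCond g → Y113.SDc g := by
    rintro g ⟨C, h1, h2⟩
    have hC : 1 ≤ C := by
      obtain ⟨d, hd0, hd, -⟩ := h2 0
      have : (1 : ℝ) ≤ d := by exact_mod_cast hd0
      simpa using this.trans hd
    obtain ⟨a, ha⟩ := Y678.HG.exists_two_pow C
    refine ⟨a, fun m => (h1 m).trans (pow_le_pow_left₀ (by linarith) ha _), fun m => ?_⟩
    obtain ⟨d, hd0, hd, hd'⟩ := h2 m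
    exact ⟨d, hd0, hd.trans (pow_le_pow_left₀ (by linarith) ha _), hd'⟩
  set H : Matrix (Fin n) (Fin n) ℚ⟦X⟧ := Matrix.of fun i j => Z j i with hH
  set W' : Matrix (Fin n) (Fin n) ℚ⟦X⟧ := Matrix.of fun i j => W j i with hW'
  set N' : Matrix (Fin n) (Fin n) ℚ := (N.transpose).map (Int.castRingHom ℚ) with hN'
  have hN0 : N' ^ n = 0 := by
    have h1 := map_pow (RingHom.mapMatrix (Int.castRingHom ℚ)) N.transpose n
    rw [← Matrix.transpose_pow, hN, Matrix.transpose_zero, map_zero] at h1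
    exact h1.symm
  have hNz : ∀ i j, (((fun i j => N j i) i j : ℤ) : ℚ) = N' i j := fun i j => rfl
  have hHW : H * W' = 1 := by
    funext i j
    have h1 : (W * Z) j i = (1 : Matrix (Fin n) (Fin n) ℚ⟦X⟧) j i := by rw [hW]
    rw [Matrix.mul_apply] at h1 ⊢
    rw [Matrix.one_apply] at h1 ⊢
    have h2 : (if i = j then (1 : ℚ⟦X⟧) else 0) = if j = i then 1 else 0 := by
      simp only [eq_comm]
    rw [h2, ← h1]
    exact Finset.sum_congr rfl fun k _ => mul_comm _ _
  have h0 : ∀ i j, coeff 0 (H i j) = if i = j then 1 else 0 := by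
    intro i j
    have h2 : (if i = j then (1 : ℚ) else 0) = if j = i then 1 else 0 := by
      simp only [eq_comm]
    rw [h2]
    exact hZ0 j i
  have hode' : ∀ i j, Y113.ps T * (X * d⁄dX ℚ (H i j) + ∑ k, H i k * C (N' k j)) = ∑ k, Y113.ps ((fun i k => A k i) i k) * H k j := by
    intro i j
    have h1 := hode j i
    have h2 : ∑ k, H i k * C (N' k j) = ∑ k, C (N j k : ℚ) * Z k i := Finset.sum_congr rfl fun k _ => mul_comm _ _
    have h3 : ∑ k, Y113.ps ((fun i k => A k i) i k) * H k j = ∑ k, Z j k * toQ (A k i) :=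
      Finset.sum_congr rfl fun k _ => mul_comm _ _
    rw [h2, h3, ← h1]
    rfl
  have hHs : ∀ i j, Y113.SDc (H i j) := fun i j => hG _ (hGZ j i)
  have hWs : ∀ i j, Y113.SDc (W' i j) := fun i j => hG _ (hGW j i)
  obtain ⟨q, C, hGS⟩ := Pool.Agent.Y119.HZ.gsysL hN0 hHW hode' hHs hWs
  refine ⟨mul_ne_zero Polynomial.X_ne_zero hT, fun i => ?_, ⟨q, C, hGS.reindex (Pool.Agent.Y119.HZ.ix n)⟩,
    Pool.Agent.Y119.HZ.qu_gen hN0 hNz h0 hode' hHs⟩
  have h1 := Pool.Agent.Y119.HZ.ode_A3 hNz hode' (Pool.Agent.Y119.HZ.ix n i)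
  have h2 : ∑ j : Fin (n * n), Y113.ps (Pool.Agent.Y119.HZ.A3 T (fun i k => A k i) (fun i j => N j i) (Pool.Agent.Y119.HZ.ix n i)
      (Pool.Agent.Y119.HZ.ix n j)) * H (Pool.Agent.Y119.HZ.ix n j).1 (Pool.Agent.Y119.HZ.ix n j).2 =
      ∑ q, Y113.ps (Pool.Agent.Y119.HZ.A3 T (fun i k => A k i) (fun i j => N j i) (Pool.Agent.Y119.HZ.ix n i) q) * H q.1 q.2 :=
    Equiv.sum_comp (Pool.Agent.Y119.HZ.ix n) fun q =>
      Y113.ps (Pool.Agent.Y119.HZ.A3 T (fun i k => A k i) (fun i j => N j i) (Pool.Agent.Y119.HZ.ix n i) q) * H q.1 q.2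
  exact h1.trans h2.symm

/-- the place of an entry -/
def pl (n : ℕ) (p : Fin n × Fin n) : Fin (n * n) := (Pool.Agent.Y119.HZ.ix n).symm (p.2, p.1)

lemma ix_pl (n : ℕ) (p : Fin n × Fin n) : Pool.Agent.Y119.HZ.ix n (pl n p) = (p.2, p.1) := Equiv.apply_symm_apply _ _

lemma pl_surj (n : ℕ) : Function.Surjective (pl n) := fun a =>
  ⟨((Pool.Agent.Y119.HZ.ix n a).2, (Pool.Agent.Y119.HZ.ix n a).1), by rw [pl, Equiv.symm_apply_eq]⟩

/-- The theorem. `G` depends only on the family; in the first part `c` and `M₀` depend only on the family and on `k, δ, D`. -/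
theorem result (n : ℕ) (T : Polynomial ℤ) (A : Matrix (Fin n) (Fin n) (Polynomial ℤ)) (N : Matrix (Fin n) (Fin n) ℤ)
    (Z W : Matrix (Fin n) (Fin n) ℚ⟦X⟧) (hT : T ≠ 0) (hN : N ^ n = 0)
    (hode : ∀ i j, toQ T * (X * PowerSeries.derivative ℚ (Z i j) + ∑ k, C (N i k : ℚ) * Z k j) = ∑ k, Z i k * toQ (A k j))
    (hZ0 : ∀ i j, coeff 0 (Z i j) = if i = j then 1 else 0) (hW : W * Z = 1)
    (hGZ : ∀ i j, GCond (Z i j)) (hGW : ∀ i j, GCond (W i j)) :
    ∃ G : ℕ, ∀ k δ D : ℕ,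
      (∃ (c : ℝ) (M₀ : ℕ), 0 < c ∧ ∀ M : ℕ, M₀ ≤ M → ∀ Ω : Matrix (Fin n) (Fin n) ℂ, IsUnit Ω →
        Bound Ω N Z G k δ D ((k - 1) * (rank Z + 1)) c M) ∧
      ∀ Ω : Matrix (Fin n) (Fin n) ℂ, IsUnit Ω → ∀ (s : ℕ) (ω : Fin s → ℂ),
        (∀ i j, IsAlgebraic (Algebra.adjoin ℚ (Set.range ω)) (Ω i j)) →
        ∃ (c : ℝ) (M₀ : ℕ), 0 < c ∧ ∀ M : ℕ, M₀ ≤ M → Bound Ω N Z G k δ D (k * (rank Z + 1) - (s + 1)) c M := by
  classical
  have hF := gf T A N Z W hT hN hode hZ0 hW hGZ hGW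
  set Nq : Matrix (Fin n) (Fin n) ℚ := N.map (Int.castRingHom ℚ) with hNq
  have hb : Nq ^ n = 0 := by
    have h1 := map_pow (RingHom.mapMatrix (Int.castRingHom ℚ)) N n
    rw [hN, map_zero] at h1
    exact h1.symm
  -- a transcendence basis among the entries
  set U : Set ℕ := {d : ℕ | ∃ T : Fin d → Fin n × Fin n, AlgebraicIndependent (Polynomial ℚ) (fun i => Z (T i).1 (T i).2)} with hU
  have hbdd : BddAbove U := by
    refine ⟨Fintype.card (Fin n × Fin n), ?_⟩
    rintro d ⟨T, hT⟩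
    have h1 : Function.Injective T := by
      intro i j hij
      exact hT.injective (by
        show Z (T i).1 (T i).2 = Z (T j).1 (T j).2
        rw [hij])
    simpa using Fintype.card_le_of_injective T h1
  have hne : U.Nonempty := by
    refine ⟨0, fun i => i.elim0, ?_⟩
    rw [algebraicIndependent_empty_type_iff]
    intro p q hpq
    have h1 : ((p : Polynomial ℚ) : ℚ⟦X⟧) = (q : ℚ⟦X⟧) := by
      simpa [PowerSeries.algebraMap_apply'] using hpq
    exact_mod_cast h1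
  obtain ⟨T₁, hT₁⟩ : rank Z ∈ U := Nat.sSup_mem hne hbdd
  have hT' : AlgebraicIndependent (Polynomial ℚ) (fun i => (fun a => Z (Pool.Agent.Y119.HZ.ix n a).2 (Pool.Agent.Y119.HZ.ix n a).1)
      (pl n (T₁ i))) := by
    simpa only [ix_pl] using hT₁
  have hmax : ∀ p : Fin (n * n), ¬ AlgebraicIndependent (Polynomial ℚ)
      (fun i => (fun a => Z (Pool.Agent.Y119.HZ.ix n a).2 (Pool.Agent.Y119.HZ.ix n a).1)
        ((Fin.cons p (fun i => pl n (T₁ i)) : Fin (rank Z + 1) → Fin (n * n)) i)) := by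
    intro p hp
    have h1 : rank Z + 1 ≤ rank Z := le_csSup hbdd ⟨fun i =>
      ((Pool.Agent.Y119.HZ.ix n ((Fin.cons p (fun i => pl n (T₁ i)) : Fin (rank Z + 1) → Fin (n * n)) i)).2,
        (Pool.Agent.Y119.HZ.ix n ((Fin.cons p (fun i => pl n (T₁ i)) : Fin (rank Z + 1) → Fin (n * n)) i)).1), hp⟩
    omega
  have hWs' : ∃ C : ℝ, 1 ≤ C ∧ ∀ i j m, |((coeff m (W i j) : ℚ) : ℝ)| ≤ C ^ (m + 1) := by
    choose C hC using hGW
    refine ⟨1 + ∑ p : Fin n × Fin n, |C p.1 p.2|, by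
      have : 0 ≤ ∑ p : Fin n × Fin n, |C p.1 p.2| := Finset.sum_nonneg fun p _ => abs_nonneg _
      linarith, fun i j m => ((hC i j).1 m).trans ?_⟩
    have h1 : |C i j| ≤ ∑ p : Fin n × Fin n, |C p.1 p.2| :=
      Finset.single_le_sum (f := fun p : Fin n × Fin n => |C p.1 p.2|) (fun p _ => abs_nonneg _) (Finset.mem_univ (i, j))
    calc C i j ^ (m + 1) ≤ |C i j ^ (m + 1)| := le_abs_self _
      _ = |C i j| ^ (m + 1) := abs_pow _ _
      _ ≤ _ := pow_le_pow_left₀ (abs_nonneg _) (by linarith) _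
  obtain ⟨G0, hmain⟩ := Y124.TL.fin_main hF (pl n) (pl_surj n) (W := fun i j => W i j)
    (fun i j => by
      have h1 : (W * Z) i j = (1 : Matrix (Fin n) (Fin n) ℚ⟦X⟧) i j := by rw [hW]
      rw [Matrix.mul_apply] at h1
      simp only [ix_pl]
      rw [h1, Matrix.one_apply]) hWs' hb (fun i => pl n (T₁ i)) hT' hmax
  refine ⟨G0, fun k δ D => ?_⟩
  obtain ⟨h1, h2⟩ := hmain k δ D
  -- the windows
  have conv : ∀ (E r : ℕ) (Ω : Matrix (Fin n) (Fin n) ℂ) (M : ℕ) (c : ℝ), 0 < c → (⌊(M : ℝ) ^ c⌋₊ + G0 + 2) ^ E ≤ M →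
      (∀ H t : ℕ, (H + 2) ^ E ≤ t → ∀ g : Fin k → ℕ, Y120.GH.SepR G0 g → (∀ l, g l ≤ H) →
        ∀ (K : IntermediateField ℚ ℂ) [FiniteDimensional ℚ K], finrank ℚ K ≤ D → ∀ z : Fin k × Option (Fin n × Fin n) → ℂ,
          (∀ V : Submodule K ℂ, (∀ x, z x ∈ V) → ∀ l, ((Real.log ((t - g l : ℕ) : ℝ) : ℝ) : ℂ) ∈ V ∧
              ∀ i j, (Ω * Y124.TL.EX Nq (-((Real.log ((t - g l : ℕ) : ℝ) : ℝ) : ℂ)) *
                Y124.TL.Zr (fun a => Z (Pool.Agent.Y119.HZ.ix n a).2 (Pool.Agent.Y119.HZ.ix n a).1) (pl n)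
                  ((t - g l : ℕ) : ℝ)) i j ∈ V) →
          ∃ σ : Fin r → Fin k × Option (Fin n × Fin n), Function.Injective σ ∧ Y124.TD.LIb K δ (fun i => z (σ i))) →
      Bound Ω N Z G0 k δ D r c M := by
    intro E r Ω M c hc hM hh m hm hsep K _ hK R S
    have hle : ∀ j, m j ≤ M + ⌊(M : ℝ) ^ c⌋₊ := by
      intro j
      have h1 := (hm j).2
      have h2 : ((m j - M : ℕ) : ℝ) ≤ (M : ℝ) ^ c := by
        rw [Nat.cast_sub (hm j).1]
        linarith
      have h3 := Nat.le_floor h2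
      have := (hm j).1
      omega
    set H := ⌊(M : ℝ) ^ c⌋₊ with hH
    have hTg : ∀ l, M + (H + G0) - (M + (H + G0) - m l) = m l := fun l => by
      have := hle l
      omega
    set P : Fin k → Matrix (Fin n) (Fin n) ℂ := fun l => (R l : Matrix (Fin n) (Fin n) K).map (algebraMap K ℂ) *
        periods Ω N Z (m l) * (S l : Matrix (Fin n) (Fin n) K).map (algebraMap K ℂ) with hP
    set z : Fin k × Option (Fin n × Fin n) → ℂ := fun x => x.2.elim ((Real.log (m x.1) : ℝ) : ℂ) fun p => P x.1 p.1 p.2 with hz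
    obtain ⟨σ, hσ, hLI⟩ := hh (H + G0) (M + (H + G0)) (hM.trans (Nat.le_add_right _ _)) (fun l => M + (H + G0) - m l) ⟨fun l => by
      have h5 := hle l
      show G0 ≤ M + (H + G0) - m l
      omega, fun l l' hll => by
      have h4 := hsep l l' hll
      have h5 := hle l
      have h6 := hle l'
      show M + (H + G0) - m l + G0 ≤ M + (H + G0) - m l' ∨ M + (H + G0) - m l' + G0 ≤ M + (H + G0) - m l
      rcases le_total (m l) (m l') with h7 | h7
      · right
        rw [abs_of_nonpos (by omega)] at h4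
        omega
      · left
        rw [abs_of_nonneg (by omega)] at h4
        omega⟩ (fun l => by
      have := (hm l).1
      show M + (H + G0) - m l ≤ H + G0
      omega) K hK z (fun V hV l => by
      rw [hTg]
      refine ⟨hV (l, none), fun i j => ?_⟩
      have e1 : Ω * Y124.TL.EX Nq (-((Real.log (m l : ℝ) : ℝ) : ℂ)) *
          Y124.TL.Zr (fun a => Z (Pool.Agent.Y119.HZ.ix n a).2 (Pool.Agent.Y119.HZ.ix n a).1) (pl n) (m l : ℝ) =
            periods Ω N Z (m l) := by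
        have e2 : Nq.map (algebraMap ℚ ℂ) = N.map (Int.castRingHom ℂ) := by
          funext i j
          simp [hNq]
        unfold periods Y124.TL.EX
        rw [e2]
        congr 1
        funext i j
        show ((Y113.ev (m l : ℝ) (Z (Pool.Agent.Y119.HZ.ix n (pl n (i, j))).2 (Pool.Agent.Y119.HZ.ix n (pl n (i, j))).1) : ℝ) : ℂ) = _
        rw [ix_pl]
        rfl
      rw [e1]
      have h3 : ∀ i j, ((R l : Matrix (Fin n) (Fin n) K).map (algebraMap K ℂ) * periods Ω N Z (m l) *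
          (S l : Matrix (Fin n) (Fin n) K).map (algebraMap K ℂ)) i j ∈ V := fun i j => hV (l, some (i, j))
      have hR : (((R l)⁻¹ : (Matrix (Fin n) (Fin n) K)ˣ) : Matrix (Fin n) (Fin n) K).map (algebraMap K ℂ) *
          (R l : Matrix (Fin n) (Fin n) K).map (algebraMap K ℂ) = 1 := by
        rw [← Matrix.map_mul, Units.inv_mul, Matrix.map_one _ (map_zero _) (map_one _)]
      have hS : (S l : Matrix (Fin n) (Fin n) K).map (algebraMap K ℂ) *
          (((S l)⁻¹ : (Matrix (Fin n) (Fin n) K)ˣ) : Matrix (Fin n) (Fin n) K).map (algebraMap K ℂ) = 1 := by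
        rw [← Matrix.map_mul, Units.mul_inv, Matrix.map_one _ (map_zero _) (map_one _)]
      exact Y124.TG.mem_of_mul hR hS h3 i j)
    exact ⟨σ, hσ, fun Q hQ h0 => Y124.TD.LIb.mv hLI Q hQ h0⟩
  constructor
  · obtain ⟨E, hE⟩ := h1
    obtain ⟨c, M₀, hc, hw⟩ := Y124.TD.window E G0
    refine ⟨c, M₀, hc, fun M hM Ω hΩ => ?_⟩
    obtain ⟨u, rfl⟩ := hΩ
    exact conv E _ _ M c hc (hw M hM) fun H t ht g hg hgH K _ hK z hz =>
      hE H t ht g hg hgH (u : Matrix (Fin n) (Fin n) ℂ) (u⁻¹ : (Matrix (Fin n) (Fin n) ℂ)ˣ) u.mul_inv K hK z hz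
  · intro Ω hΩ s ω hω
    obtain ⟨u, rfl⟩ := hΩ
    obtain ⟨E, hE⟩ := h2 (u : Matrix (Fin n) (Fin n) ℂ) (u⁻¹ : (Matrix (Fin n) (Fin n) ℂ)ˣ) u.mul_inv s ω hω
    obtain ⟨c, M₀, hc, hw⟩ := Y124.TD.window E G0
    refine ⟨c, M₀, hc, fun M hM => ?_⟩
    exact conv E _ _ M c hc (hw M hM) fun H t ht g hg hgH K _ hK z hz => hE H t ht g hg hgH K hK z hz

end Pool.Agent.Results.MP_cbf1af_ag.AllTuplesDegenerating
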