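import Pool.Agent.Y123.GN.C6

/-!
# Torsors of periods of hypergeometric motives of Calabi–Yau type

Let `β_(i,1), …, β_(i,m_i)` be rational numbers which are not integers, `n_i = 2 m_i` and `θ = z d/dz`. The
hypergeometric operator `θ^(n_i) - z ∏_j (θ - β_(i,j)) (θ + β_(i,j))` has maximally unipotent monodromy at `z = 0`. For
`m_i = 1` its solutions are periods of families of elliptic curves, for `m_i = 2` and `β_i = (1/5, 2/5)` it is contiguous to
the operator of the mirror quintic. The period matrix of the fibre at `z = 1 / t` is `(Y_i(t) Ω_i)ᵀ` (rows: Betti side,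
columns: de Rham side), where `Y_i(t)` is the matrix of the `(θ^a f_b)(1 / t)`, `f_b` the Frobenius basis, and `Ω_i` is an
invertible matrix of constants (the periods of the limit motive). We consider every invertible complex matrix `Ω_i`,
and write `M_(i,t)` for the de Rham-Betti object with this period matrix.

Let `K` be a number field and `M_0` any de Rham-Betti object over `K`, for example the realisation of any (pure or mixed)
motive over `K`, with period matrix `C₀` (any invertible complex matrix). Let `K(t)` be the Kummer motive of `t`, with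
the period matrix `((1, log t), (0, 2πi))`, and
`M = M_0 ⊕ ℚ(-1) ⊕ K(t_1) ⊕ M_(1,t_1) ⊕ … ⊕ K(t_k) ⊕ M_(k,t_k)`.
Then for almost all `t = (t_1, …, t_k)` (all but `C N^(k-1) ∑_i (1 + N / (x_i + N)^c)` of the `N^k` points of every box
`∏ (x_i, x_i + N]`, where `c > 0` and `C` depend only on the `β_i`, the degree of `K` and the rank of `M_0`):

1. Every `K`-subtorsor of `Iso(M_dR, M_B)` which contains the period matrix is stable under `∏_i (G_a × Sp(P_i))`, where
`P_i = Ω_iᵀ J_i Ω_i` is the form of `M_(i,t)` on the Betti side. (So it is invariant under the connected monodromy group of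
the family over `(ℙ¹)^k`, which acts trivially on `M_0 ⊕ ℚ(-1)`.)

2. If `P_i = (2πi)^(w_i) B_i` with a matrix `B_i` over `K` (this is the case if `M_(i,t)` is the realisation of a motive
with a polarisation with values in `ℚ(-w_i)`), then every `K`-subtorsor which contains the period matrix and respects the
decomposition, the extensions and the polarisations is the fibre product of its projection `T_0` to `M_0 ⊕ ℚ(-1)`, which
is a `K`-subtorsor, with the torsor of all `(u_i), (X_i)`: it consists of all `x_0 ⊕ μ ⊕ (1, u_i; 0, μ) ⊕ X_i` with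
`x_0 ⊕ μ ∈ T_0` and `X_i J_i X_iᵀ = μ^(w_i) B_i`.

3. The smallest `K`-subtorsor which contains the period matrix is such a fibre product, with `T_0` the smallest
`K`-subtorsor which contains the period matrix of `M_0 ⊕ ℚ(-1)`; and for `M_0 = 0` the latter is the multiplicative group.

Consequences. For `M_0 = 0` the smallest `K`-subtorsor which contains the period matrix of
`K(t_1) ⊕ M_(1,t_1) ⊕ … ⊕ K(t_k) ⊕ M_(k,t_k)` is the torsor predicted by the period conjecture: the torsor under the group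
of the `((1, u_i; 0, μ), g_i)` with `g_i ∈ GSp`, multiplier `μ^(w_i)`. So the tannakian group of the de Rham-Betti
realisation is as large as the Mumford-Tate group can be. For every motive `M_0` the statement that the smallest `K`-subtorsor
is the torsor of motivic periods, for `M`, is equivalent to the same statement for `M_0 ⊕ ℚ(-1)`.

Proof (`Pool/Agent/Y123/GN`). A theorem of helper119 (`Pool/Agent/Y119/HY`) says that outside of a sparse set all relations
of bounded degree with coefficients in a given `ℚ`-space of bounded dimension between the numbers `log t_i` and the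
entries of the `Y_i(t_i) Ω_i` are trivial. By a general criterion for perfect groups generated by unipotent elements
(`abs_main`) the Lie algebra of the subtorsor contains the Lie algebras of the symplectic groups, and from the
transcendence of `2πi`, a derivation of `ℂ` over `K` and conjugation by the unipotent matrices it follows that it
contains the Lie algebras of the groups `G_a`. The projection is closed because of a Lagrangian section, and defined over
`K` by descent.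
-/

set_option autoImplicit false

open PowerSeries Matrix

namespace Pool.Agent.Results.MP_cbf1af_ag.HypergeometricTorsors

/-- `T` is (the set of complex points of) a `K`-subtorsor of `GL_B = Iso (M_dR, M_B)`: it is closed under `x y⁻¹ z`, and
it is defined in `GL_B` by polynomials with coefficients in `K`. -/
def IsSubtorsor (K : Subfield ℂ) {B : Type} [Fintype B] [DecidableEq B] (T : Set (Matrix B B ℂ)) : Prop :=
  (∀ x ∈ T, ∀ y ∈ T, ∀ z ∈ T, x * y⁻¹ * z ∈ T) ∧ ∃ I : Set (MvPolynomial (B × B) K), ∀ x : Matrix B B ℂ, x ∈ T ↔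
    IsUnit x ∧ ∀ p ∈ I, MvPolynomial.eval (fun b => x b.1 b.2) (MvPolynomial.map (algebraMap K ℂ) p) = 0

/-- `Ω` is the smallest `K`-subtorsor which contains the period matrix `c` -/
def IsOmega (K : Subfield ℂ) {B : Type} [Fintype B] [DecidableEq B] (c : Matrix B B ℂ) (Ω : Set (Matrix B B ℂ)) : Prop :=
  IsSubtorsor K Ω ∧ c ∈ Ω ∧ ∀ T : Set (Matrix B B ℂ), IsSubtorsor K T → c ∈ T → Ω ⊆ T

/-- the power series `k + ε` in the variable `ε` -/
noncomputable def shift (k : ℕ) : PowerSeries ℚ := C (k : ℚ) + X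

/-- `a_k(ε) = ∏_{l < k} ∏_j ((l + ε)^2 - β_j^2) / (l + 1 + ε)^(2m)`. The series `∑_k a_k(ε) z^(k + ε)` solves the
equation `(θ^n - z ∏_j (θ^2 - β_j^2)) f = ε^n z^ε`, hence its coefficients `f_j` at `ε^j` with `j < n = 2m` are
solutions of the homogeneous equation. -/
noncomputable def frob {m : ℕ} (β : Fin m → ℚ) (k : ℕ) : PowerSeries ℚ :=
  ∏ l ∈ Finset.range k, ((∏ j, (shift l ^ 2 - C (β j ^ 2))) * ((shift (l + 1))⁻¹) ^ (2 * m))

/-- The matrix with the entries `(θ^i f_j)(1 / t)`, where `f_j(z)` is the coefficient of `ε^j` in the series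
`∑_k a_k(ε) z^(k + ε)`, `z^ε = ∑_l (log z)^l ε^l / l!`. -/
noncomputable def Y {m : ℕ} (β : Fin m → ℚ) (t : ℕ) : Matrix (Fin (2 * m)) (Fin (2 * m)) ℂ :=
  Matrix.of fun i j => ∑ l ∈ Finset.range ((j : ℕ) + 1), ((Real.log (1 / t) ^ l / l.factorial : ℝ) : ℂ) *
    ∑' k : ℕ, ((coeff ((j : ℕ) - l) (shift k ^ (i : ℕ) * frob β k) : ℚ) : ℂ) * (1 / (t : ℂ)) ^ k

/-- the polynomial `∏_j (x^2 - β_j^2)` -/
noncomputable def poly {m : ℕ} (β : Fin m → ℚ) : Polynomial ℚ := ∏ j, (Polynomial.X ^ 2 - Polynomial.C (β j ^ 2))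

/-- The matrix of the intersection form: the entry `(i, j)` is `(-1)^i q_{i+j+1-n}` for `i + j + 1 ≥ n` and `0`
otherwise, where `q_l` are the coefficients of `∏_j (x^2 - β_j^2)`. -/
noncomputable def J {m : ℕ} (β : Fin m → ℚ) : Matrix (Fin (2 * m)) (Fin (2 * m)) ℂ :=
  Matrix.of fun i j => if 2 * m ≤ (i : ℕ) + j + 1 then (((-1) ^ (i : ℕ) * (poly β).coeff (i + j + 1 - 2 * m) : ℚ) : ℂ) else 0

/-- the form on the Betti side -/
noncomputable def pairing {m : ℕ} (β : Fin m → ℚ) (Ω : Matrix (Fin (2 * m)) (Fin (2 * m)) ℂ) :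
    Matrix (Fin (2 * m)) (Fin (2 * m)) ℂ := Ωᵀ * J β * Ω

/-- the number `2πi` -/
noncomputable def twoPiI : ℂ := 2 * Real.pi * Complex.I

/-- the block matrix `x ⊕ μ`; for a period matrix `x` of `M_0` and `μ = 2πi` the period matrix of `M_0 ⊕ ℚ(-1)` -/
def withTate {r : ℕ} (x : Matrix (Fin r) (Fin r) ℂ) (μ : ℂ) : Matrix (Fin r ⊕ Unit) (Fin r ⊕ Unit) ℂ :=
  Matrix.fromBlocks x 0 0 (Matrix.of fun _ _ => μ)

/-- the index set of the bases of `M_0 ⊕ ℚ(-1) ⊕ ⨁_i (K(t_i) ⊕ M_(i,t_i))` -/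
abbrev Index (r : ℕ) {k : ℕ} (m : Fin k → ℕ) : Type := (Fin r ⊕ Unit) ⊕ (Σ i : Fin k, Fin 2 ⊕ Fin (2 * m i))

/-- the block matrix `x ⊕ μ ⊕ ⨁_i ((1, u_i; 0, μ) ⊕ X_i)` -/
noncomputable def total {r k : ℕ} {m : Fin k → ℕ} (x : Matrix (Fin r) (Fin r) ℂ) (μ : ℂ) (u : Fin k → ℂ)
    (X : ∀ i, Matrix (Fin (2 * m i)) (Fin (2 * m i)) ℂ) : Matrix (Index r m) (Index r m) ℂ :=
  Matrix.fromBlocks (withTate x μ) 0 0 (Matrix.blockDiagonal' fun i => Matrix.fromBlocks !![1, u i; 0, μ] 0 0 (X i))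

/-- the period matrix of `M_0 ⊕ ℚ(-1) ⊕ ⨁_i (K(t_i) ⊕ M_(i,t_i))` -/
noncomputable def periodMatrix {r k : ℕ} {m : Fin k → ℕ} (C₀ : Matrix (Fin r) (Fin r) ℂ) (β : ∀ i, Fin (m i) → ℚ)
    (Ω : ∀ i, Matrix (Fin (2 * m i)) (Fin (2 * m i)) ℂ) (t : Fin k → ℕ) : Matrix (Index r m) (Index r m) ℂ :=
  total C₀ twoPiI (fun i => ((Real.log (t i) : ℝ) : ℂ)) fun i => (Y (β i) (t i) * Ω i)ᵀ

/-- 1: all `K`-subtorsors which contain the period matrix are stable under the group of all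
`1 ⊕ ⨁_i ((1, a_i; 0, 1) ⊕ g_i)` such that `g_i` is an isometry of the form on the Betti side -/
def Stable (K : Subfield ℂ) {r k : ℕ} {m : Fin k → ℕ} (C₀ : Matrix (Fin r) (Fin r) ℂ) (β : ∀ i, Fin (m i) → ℚ)
    (Ω : ∀ i, Matrix (Fin (2 * m i)) (Fin (2 * m i)) ℂ) (t : Fin k → ℕ) : Prop :=
  ∀ T : Set (Matrix (Index r m) (Index r m) ℂ), IsSubtorsor K T → periodMatrix C₀ β Ω t ∈ T →
    ∀ (a : Fin k → ℂ) (g : ∀ i, Matrix (Fin (2 * m i)) (Fin (2 * m i)) ℂ),
      (∀ i, g i * pairing (β i) (Ω i) * (g i)ᵀ = pairing (β i) (Ω i)) → ∀ x ∈ T, total 1 1 a g * x ∈ T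

/-- `(X_i)` respects the polarisations, with multiplier `μ` -/
def Respects {k : ℕ} {m : Fin k → ℕ} (β : ∀ i, Fin (m i) → ℚ) (w : Fin k → ℕ)
    (B : ∀ i, Matrix (Fin (2 * m i)) (Fin (2 * m i)) ℂ) (X : ∀ i, Matrix (Fin (2 * m i)) (Fin (2 * m i)) ℂ) (μ : ℂ) : Prop :=
  ∀ i, X i * J (β i) * (X i)ᵀ = μ ^ w i • B i

/-- the matrices which respect the decomposition, the Kummer extensions and the polarisations -/
def respecting {r k : ℕ} {m : Fin k → ℕ} (β : ∀ i, Fin (m i) → ℚ) (w : Fin k → ℕ)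
    (B : ∀ i, Matrix (Fin (2 * m i)) (Fin (2 * m i)) ℂ) : Set (Matrix (Index r m) (Index r m) ℂ) :=
  {y | ∃ (x : Matrix (Fin r) (Fin r) ℂ) (μ : ℂ) (u : Fin k → ℂ) (X : ∀ i, Matrix (Fin (2 * m i)) (Fin (2 * m i)) ℂ),
    Respects β w B X μ ∧ y = total x μ u X}

/-- the fibre product: the matrices `x ⊕ μ ⊕ ⨁_i ((1, u_i; 0, μ) ⊕ X_i)` such that `x ⊕ μ` is in `T₀` and `(X_i)` respects
the polarisations with the multiplier `μ` -/
def fibreProduct {r k : ℕ} {m : Fin k → ℕ} (β : ∀ i, Fin (m i) → ℚ) (w : Fin k → ℕ)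
    (B : ∀ i, Matrix (Fin (2 * m i)) (Fin (2 * m i)) ℂ) (T₀ : Set (Matrix (Fin r ⊕ Unit) (Fin r ⊕ Unit) ℂ)) :
    Set (Matrix (Index r m) (Index r m) ℂ) :=
  {y | ∃ (x : Matrix (Fin r) (Fin r) ℂ) (μ : ℂ) (u : Fin k → ℂ) (X : ∀ i, Matrix (Fin (2 * m i)) (Fin (2 * m i)) ℂ),
    withTate x μ ∈ T₀ ∧ Respects β w B X μ ∧ y = total x μ u X}

/-- the projection to `M_0 ⊕ ℚ(-1)` -/
def proj {r k : ℕ} {m : Fin k → ℕ} (T : Set (Matrix (Index r m) (Index r m) ℂ)) :
    Set (Matrix (Fin r ⊕ Unit) (Fin r ⊕ Unit) ℂ) :=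
  {v | ∃ (x : Matrix (Fin r) (Fin r) ℂ) (μ : ℂ) (u : Fin k → ℂ) (X : ∀ i, Matrix (Fin (2 * m i)) (Fin (2 * m i)) ℂ),
    v = withTate x μ ∧ total x μ u X ∈ T}

/-- 2 and 3: if the form on the Betti side is `(2πi)^(w_i)` times a matrix over `K`, then all `K`-subtorsors which contain
the period matrix and respect the decomposition, the extensions and the polarisations are fibre products, and the
smallest `K`-subtorsor is the fibre product with the smallest `K`-subtorsor for `M_0 ⊕ ℚ(-1)`, which for `M_0 = 0` is the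
whole multiplicative group -/
def FibreProducts (K : Subfield ℂ) {r k : ℕ} {m : Fin k → ℕ} (C₀ : Matrix (Fin r) (Fin r) ℂ) (β : ∀ i, Fin (m i) → ℚ)
    (Ω : ∀ i, Matrix (Fin (2 * m i)) (Fin (2 * m i)) ℂ) (t : Fin k → ℕ) : Prop :=
  ∀ (w : Fin k → ℕ) (B : ∀ i, Matrix (Fin (2 * m i)) (Fin (2 * m i)) ℂ), (∀ i a b, B i a b ∈ K) →
    (∀ i, pairing (β i) (Ω i) = twoPiI ^ w i • B i) →
    (∀ T : Set (Matrix (Index r m) (Index r m) ℂ), IsSubtorsor K T → periodMatrix C₀ β Ω t ∈ T →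
      T ⊆ respecting β w B → IsSubtorsor K (proj T) ∧ T = fibreProduct β w B (proj T)) ∧
    ∃ Ω₀, IsOmega K (withTate C₀ twoPiI) Ω₀ ∧ (r = 0 → Ω₀ = {x | IsUnit x}) ∧
      IsOmega K (periodMatrix C₀ β Ω t) (fibreProduct β w B Ω₀)

theorem shift_eq (k : ℕ) : shift k = Pool.Agent.Y119.HY.kx k := rfl

theorem frob_eq {m : ℕ} (β : Fin m → ℚ) (k : ℕ) : frob β k = Pool.Agent.Y119.HY.aq (2 * m) (Pool.Agent.Y119.HY.QB β) k := by
  unfold frob Pool.Agent.Y119.HY.aq
  refine Finset.prod_congr rfl fun l _ => ?_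
  congr 1
  unfold Pool.Agent.Y119.HY.QB
  rw [map_prod]
  refine Finset.prod_congr rfl fun j _ => ?_
  simp only [map_sub, map_pow, Polynomial.aeval_X, Polynomial.aeval_C]
  rfl

theorem J_eq {m : ℕ} (β : Fin m → ℚ) :
    J β = Pool.Agent.Y119.HY.cm (Pool.Agent.Y119.HY.Jm (2 * m) (Pool.Agent.Y119.HY.QB β)) := by
  ext i j
  rw [Pool.Agent.Y119.HY.cm_apply]
  unfold J Pool.Agent.Y119.HY.Jm
  rw [Matrix.of_apply, Matrix.of_apply]
  split_ifs
  · rfl
  · simp

theorem Y_eq {m : ℕ} (β : Fin m → ℚ) (t : ℕ) :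
    Y β t = Pool.Agent.Y119.HZ.Yt (2 * m) (Pool.Agent.Y119.HY.QB β) t := by
  ext i j
  unfold Y Pool.Agent.Y119.HZ.Yt
  rw [Matrix.of_apply, Matrix.mul_apply]
  have hE : ∀ c : Fin (2 * m), Pool.Agent.Y119.HY.E (Pool.Agent.Y119.HY.cm (Pool.Agent.Y119.HY.Am (2 * m)))
      (-((Real.log t : ℝ) : ℂ)) c j = ∑ l ∈ Finset.range (2 * m),
        if (j : ℕ) = c + l then ((Real.log (1 / t) ^ l / l.factorial : ℝ) : ℂ) else 0 := by
    intro c
    unfold Pool.Agent.Y119.HY.E
    rw [Matrix.sum_apply]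
    refine Finset.sum_congr rfl fun l _ => ?_
    rw [Matrix.smul_apply, ← Pool.Agent.Y119.HY.cm_pow, Pool.Agent.Y119.HY.cm_apply, Pool.Agent.Y119.HY.Am_pow, smul_eq_mul,
      one_div, Real.log_inv]
    split_ifs
    · push_cast
      ring
    · simp
  simp only [hE, Finset.mul_sum]
  rw [Finset.sum_comm]
  have hsub : Finset.range ((j : ℕ) + 1) ⊆ Finset.range (2 * m) := by
    intro l hl
    rw [Finset.mem_range] at hl ⊢
    have := j.2
    omega
  refine Finset.sum_subset_zero_on_sdiff hsub (fun l hl => ?_) fun l hl => ?_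
  · rw [Finset.mem_sdiff, Finset.mem_range, Finset.mem_range] at hl
    refine Finset.sum_eq_zero fun c _ => ?_
    rw [if_neg (by omega), mul_zero]
  · rw [Finset.mem_range] at hl
    have hj := j.2
    rw [Finset.sum_eq_single (⟨(j : ℕ) - l, by omega⟩ : Fin (2 * m))]
    · rw [if_pos (by simp only; omega), mul_comm]
      congr 1
      unfold Pool.Agent.Y119.HY.Hf Pool.Agent.Y119.HY.ps
      rw [Matrix.of_apply]
      refine tsum_congr fun k => ?_
      show _ = ((Pool.Agent.Y119.HY.hq (2 * m) (Pool.Agent.Y119.HY.QB β) k i ((j : ℕ) - l) : ℚ) : ℂ) *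
        (((1 / (t : ℝ) : ℝ)) : ℂ) ^ k
      rw [frob_eq, shift_eq]
      unfold Pool.Agent.Y119.HY.hq
      push_cast
      rfl
    · intro c _ hc
      rw [if_neg, mul_zero]
      intro h
      apply hc
      apply Fin.ext
      simp only
      omega
    · intro h
      exact absurd (Finset.mem_univ _) h

theorem withTate_unit {r : ℕ} {x : Matrix (Fin r) (Fin r) ℂ} (hx : IsUnit x) {μ : ℂ} (hμ : μ ≠ 0) :
    IsUnit (withTate x μ) := by
  rw [Matrix.isUnit_iff_isUnit_det] at hx ⊢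
  have h1 : (Matrix.of fun _ _ => μ : Matrix Unit Unit ℂ).det = μ := by
    rw [Matrix.det_unique]
    rfl
  unfold withTate
  rw [Matrix.det_fromBlocks_zero₂₁, h1]
  exact hx.mul (isUnit_iff_ne_zero.2 hμ)

theorem withTate_one {r : ℕ} : withTate (1 : Matrix (Fin r) (Fin r) ℂ) 1 = 1 := by
  unfold withTate
  have h1 : (Matrix.of fun _ _ => (1 : ℂ) : Matrix Unit Unit ℂ) = 1 := by
    ext i j
    simp
  rw [h1, fromBlocks_one]

theorem cm_withTate {r : ℕ} (x : Matrix (Fin r) (Fin r) ℂ) (μ : ℂ) :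
    Pool.Agent.Y123.SR.Cm (Sum.inr ()) (withTate x μ) := by
  rintro (k | ⟨⟩) hk
  · exact ⟨rfl, rfl⟩
  · exact absurd rfl hk

theorem eq_withTate {r : ℕ} {x : Matrix (Fin r ⊕ Unit) (Fin r ⊕ Unit) ℂ}
    (h2 : Pool.Agent.Y123.SR.Cm (Sum.inr ()) x) :
    x = withTate (Matrix.of fun i j => x (Sum.inl i) (Sum.inl j)) (x (Sum.inr ()) (Sum.inr ())) := by
  ext i j
  rcases i with i | ⟨⟩
  · rcases j with j | ⟨⟩
    · rfl
    · exact (h2 (Sum.inl i) (by simp)).2
  · rcases j with j | ⟨⟩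
    · exact (h2 (Sum.inl j) (by simp)).1
    · rfl

section
variable {r k : ℕ} {m : Fin k → ℕ} {β : ∀ i, Fin (m i) → ℚ} {w : Fin k → ℕ}
  {B : ∀ i, Matrix (Fin (2 * m i)) (Fin (2 * m i)) ℂ}

/-- the form on the de Rham side -/
noncomputable abbrev JJ (β : ∀ i, Fin (m i) → ℚ) (i : Fin k) : Matrix (Fin (2 * m i)) (Fin (2 * m i)) ℂ :=
  Pool.Agent.Y119.HY.cm (Pool.Agent.Y119.HY.Jm (2 * m i) (Pool.Agent.Y119.HY.QB (β i)))

theorem fibreProduct_eq (Ω₀ : Set (Matrix (Fin r ⊕ Unit) (Fin r ⊕ Unit) ℂ)) :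
    Pool.Agent.Y123.GN.FPM (n := fun i => 2 * m i) (JJ β) B w (Sum.inr ()) Ω₀ = fibreProduct β w B Ω₀ := by
  ext y
  constructor
  · rintro ⟨x, u, X, h1, h2, h3, rfl⟩
    have h4 := eq_withTate h2
    refine ⟨Matrix.of fun i j => x (Sum.inl i) (Sum.inl j), x (Sum.inr ()) (Sum.inr ()), u, X, ?_, fun i => ?_, ?_⟩
    · rw [← h4]
      exact h1
    · rw [J_eq]
      exact h3 i
    · unfold Pool.Agent.Y123.GN.EM total
      rw [← h4]
      rfl
  · rintro ⟨x, μ, u, X, h1, h2, rfl⟩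
    refine ⟨withTate x μ, u, X, h1, cm_withTate x μ, fun i => ?_, rfl⟩
    have h3 := h2 i
    rw [J_eq] at h3
    exact h3

theorem respecting_sub {T : Set (Matrix (Index r m) (Index r m) ℂ)} (hT : ∀ x ∈ T, IsUnit x)
    (h : T ⊆ respecting β w B) :
    T ⊆ Pool.Agent.Y123.GN.FPM (n := fun i => 2 * m i) (JJ β) B w (Sum.inr ()) {x | IsUnit x} := by
  rw [fibreProduct_eq]
  intro y hy
  obtain ⟨x, μ, u, X, h1, rfl⟩ := h hy
  exact ⟨x, μ, u, X, (Pool.Agent.Y123.GN.unit_of_EM (n := fun i => 2 * m i) (hT _ hy)).1, h1, rfl⟩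

theorem proj_eq {T : Set (Matrix (Index r m) (Index r m) ℂ)} (h : T ⊆ respecting β w B) :
    Pool.Agent.Y123.GN.PJ (n := fun i => 2 * m i) T = proj T := by
  ext v
  constructor
  · rintro ⟨κ, X, hX⟩
    obtain ⟨x, μ, u, X', h1, h2⟩ := h hX
    obtain ⟨h3, -, -⟩ := Pool.Agent.Y123.GN.EM_inj (n := fun i => 2 * m i) (show Pool.Agent.Y123.GN.EM v κ X =
      Pool.Agent.Y123.GN.EM (withTate x μ) (fun i => Pool.Agent.Y123.GN.kum (u i) μ) X' from h2)
    refine ⟨x, μ, u, X', h3, ?_⟩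
    rw [← h2]
    exact hX
  · rintro ⟨x, μ, u, X, rfl, h1⟩
    exact ⟨_, _, h1⟩

end

/-- the smallest subtorsor of `ℚ(-1)` -/
theorem omega_tate {K : Subfield ℂ} (hK : ∀ x ∈ K, IsAlgebraic ℚ x) {C₀ : Matrix (Fin 0) (Fin 0) ℂ}
    {Ω₀ : Set (Matrix (Fin 0 ⊕ Unit) (Fin 0 ⊕ Unit) ℂ)} (h : IsOmega K (withTate C₀ twoPiI) Ω₀) :
    Ω₀ = {x | IsUnit x} := by
  have hind : AlgebraicIndependent K (fun _ : (Fin 0 ⊕ Unit) × (Fin 0 ⊕ Unit) => twoPiI) := by
    have : Unique ((Fin 0 ⊕ Unit) × (Fin 0 ⊕ Unit)) :=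
      { default := (Sum.inr (), Sum.inr ())
        uniq := by
          rintro ⟨a | ⟨⟩, b | ⟨⟩⟩
          · exact a.elim0
          · exact a.elim0
          · exact b.elim0
          · rfl }
    exact (algebraicIndependent_unique_type_iff).2 (Pool.Agent.Y123.GN.tpi_tr hK)
  obtain ⟨⟨-, I, hI⟩, h2, -⟩ := h
  have hI0 : ∀ p ∈ I, p = 0 := by
    intro p hp
    have h3 := ((hI _).1 h2).2 p hp
    have h4 : (fun b : (Fin 0 ⊕ Unit) × (Fin 0 ⊕ Unit) => withTate C₀ twoPiI b.1 b.2) = fun _ => twoPiI := by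
      funext b
      obtain ⟨a | ⟨⟩, b | ⟨⟩⟩ := b
      · exact a.elim0
      · exact a.elim0
      · exact b.elim0
      · rfl
    rw [h4, MvPolynomial.eval_map] at h3
    refine hind ?_
    show MvPolynomial.aeval (fun _ => twoPiI) p = MvPolynomial.aeval (fun _ => twoPiI) 0
    rw [map_zero]
    exact h3
  ext x
  rw [hI]
  refine ⟨fun h => h.1, fun h => ⟨h, fun p hp => ?_⟩⟩
  rw [hI0 p hp, map_zero, map_zero]

/-- Let `β_i`, `1 ≤ i ≤ k`, be finite non-empty families of rational numbers which are not integers, and let `J_i` and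
`Y_i` be the alternating forms and the period matrices of the hypergeometric equations
`(θ^(2 m_i) - z ∏_j (θ^2 - β_{i,j}^2)) f = 0`. For all `D` and `r` there are `c > 0` and `C` such that for every number field
`K ⊂ ℂ` of degree `≤ D`, every invertible `r × r` matrix `C₀`, all invertible complex matrices `Ω_i` and every box
`∏_i (x_i, x_i + N]` with `x_i ≥ 1` the following holds for all but `C N^(k-1) ∑_i (1 + N / (x_i + N)^c)` integral
points `t` of the box: all `K`-subtorsors which contain the period matrix of `M_0 ⊕ ℚ(-1) ⊕ ⨁_i (K(t_i) ⊕ M_(i,t_i))` are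
stable under the product of the groups `G_a × Sp(Ω_iᵀ J_i Ω_i)`; and if `Ω_iᵀ J_i Ω_i = (2πi)^(w_i) B_i` with matrices `B_i`
over `K`, then the subtorsors which respect the decomposition, the extensions and the polarisations are fibre products,
and the smallest subtorsor is the fibre product with the smallest subtorsor for `M_0 ⊕ ℚ(-1)`. -/
theorem result (k : ℕ) (m : Fin k → ℕ) (hm : ∀ i, 1 ≤ m i) (β : ∀ i, Fin (m i) → ℚ)
    (hβ : ∀ i j, ∀ a : ℤ, β i j ≠ a) (D r : ℕ) :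
    ∃ c C : ℝ, 0 < c ∧ ∀ K : Subfield ℂ, FiniteDimensional ℚ K → Module.finrank ℚ K ≤ D →
      ∀ C₀ : Matrix (Fin r) (Fin r) ℂ, IsUnit C₀ →
      ∀ Ω : (∀ i, Matrix (Fin (2 * m i)) (Fin (2 * m i)) ℂ), (∀ i, IsUnit (Ω i)) →
      ∀ (x : Fin k → ℕ) (N : ℕ), (∀ i, 1 ≤ x i) → 1 ≤ N →
      (({t : Fin k → ℕ | (∀ i, x i < t i ∧ t i ≤ x i + N) ∧
        ¬ (Stable K C₀ β Ω t ∧ FibreProducts K C₀ β Ω t)}.ncard : ℕ) : ℝ) ≤
        C * (N : ℝ) ^ (k - 1) * ∑ i, (1 + N / ((x i : ℝ) + N) ^ c) := by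
  classical
  have hβ' : ∀ i, ∀ j, ∀ l : ℕ, (l : ℚ) + β i j ≠ 0 ∧ (l : ℚ) + -β i j ≠ 0 := by
    intro i j l
    constructor
    · intro h
      apply hβ i j (-(l : ℤ))
      push_cast
      linear_combination h
    · intro h
      apply hβ i j (l : ℤ)
      push_cast
      linear_combination -h
  have hQ := fun i => Pool.Agent.Y119.HZ.QD_QB (hm i) (hβ' i)
  obtain ⟨c, C, hc, -, hmain⟩ := Pool.Agent.Y123.GN.hyp_stab k D (r + 1) (fun i => 2 * m i)
    (fun i => Pool.Agent.Y119.HY.QB (β i)) hQ (fun i a b => Pool.Agent.Y119.HY.sdc_hps (hβ' i) (hQ i) a b)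
  refine ⟨c, C, hc, ?_⟩
  intro K hKf hKD C₀ hC₀ Ω hΩ x N hx hN
  have hKalg : ∀ x ∈ K, IsAlgebraic ℚ x := by
    intro x hx
    have : NumberField K := { to_charZero := inferInstance, to_finiteDimensional := hKf }
    have h6 : IsAlgebraic ℚ (⟨x, hx⟩ : K) := Algebra.IsAlgebraic.isAlgebraic _
    exact h6.algebraMap (A := ℂ)
  set S := {t : Fin k → ℕ | (∀ i, x i < t i ∧ t i ≤ x i + N) ∧ ¬ (Stable K C₀ β Ω t ∧ FibreProducts K C₀ β Ω t)} with hS
  have hfin : S.Finite := by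
    refine (Set.finite_Iic (fun i : Fin k => x i + N)).subset ?_
    intro t ht i
    exact (ht.1 i).2
  rw [Set.ncard_eq_toFinset_card S hfin]
  have h2pi : twoPiI ≠ 0 := Pool.Agent.Y123.GN.tpi_ne
  have hu := withTate_unit hC₀ h2pi
  have hcm := cm_withTate C₀ twoPiI
  refine hmain K hKf hKD (Fin r ⊕ Unit) (withTate C₀ twoPiI) (by simp) hu Ω hΩ x N hx hN _ fun t ht => ?_
  have ht' : t ∈ S := hfin.mem_toFinset.1 ht
  obtain ⟨hbox, hnot⟩ := ht'
  refine ⟨hbox, fun hsta => hnot ?_⟩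
  have ht2 : ∀ i, 2 ≤ t i := fun i => by
    have := (hbox i).1
    have := hx i
    omega
  have hper : periodMatrix C₀ β Ω t =
      Pool.Agent.Y123.GN.tot (n := fun i => 2 * m i) (withTate C₀ twoPiI) (fun i => Pool.Agent.Y119.HY.QB (β i)) Ω t := by
    unfold periodMatrix
    have hY : (fun i => (Y (β i) (t i) * Ω i)ᵀ) = Pool.Agent.Y123.GN.cM (n := fun i => 2 * m i)
        (fun i => Pool.Agent.Y119.HY.QB (β i)) Ω t := by
      funext i
      unfold Pool.Agent.Y123.GN.cM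
      rw [Y_eq]
    rw [hY]
    rfl
  have hpair : ∀ i, pairing (β i) (Ω i) = Pool.Agent.Y123.GN.PM' (n := fun i => 2 * m i)
      (fun i => Pool.Agent.Y119.HY.QB (β i)) Ω i := by
    intro i
    unfold pairing Pool.Agent.Y123.GN.PM'
    rw [J_eq]
  refine ⟨?_, ?_⟩
  · intro T hT hcT a g hg y hy
    have h1 := hsta T (Pool.Agent.Y123.ST.subT_iff.1 hT) (by rw [← hper]; exact hcT) a g (fun i => by
      rw [← hpair]
      exact hg i) y hy
    have h2 : total (r := r) (m := m) 1 1 a g = Pool.Agent.Y123.GN.EM (n := fun i => 2 * m i) 1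
        (fun i => Pool.Agent.Y123.GN.uu (a i)) g := by
      unfold total
      rw [withTate_one]
      rfl
    rw [h2]
    exact h1
  · intro w B hBK hP
    have hPB : ∀ i, Pool.Agent.Y123.GN.PM' (n := fun i => 2 * m i) (fun i => Pool.Agent.Y119.HY.QB (β i)) Ω i =
        Pool.Agent.Y123.GN.tpi ^ w i • B i := by
      intro i
      rw [← hpair]
      exact hP i
    have hBd : ∀ i, (B i).det ≠ 0 := by
      intro i h0
      apply Pool.Agent.Y123.GN.PM'_det (n := fun i => 2 * m i) hQ hΩ i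
      rw [hPB, det_smul, h0, mul_zero]
    have hJK : ∀ i a b, JJ β i a b ∈ K := by
      intro i a b
      show Pool.Agent.Y119.HY.cm (Pool.Agent.Y119.HY.Jm (2 * m i) (Pool.Agent.Y119.HY.QB (β i))) a b ∈ K
      rw [Pool.Agent.Y119.HY.cm_apply]
      exact SubfieldClass.ratCast_mem K _
    have key : ∀ T : Set (Matrix (Index r m) (Index r m) ℂ), Pool.Agent.TH127.PT.IsSubtorsor K T →
        periodMatrix C₀ β Ω t ∈ T →
        T ⊆ Pool.Agent.Y123.GN.FPM (n := fun i => 2 * m i) (JJ β) B w (Sum.inr ()) {x | IsUnit x} →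
        Pool.Agent.TH127.PT.IsSubtorsor K (Pool.Agent.Y123.GN.PJ (n := fun i => 2 * m i) T) ∧
          T = Pool.Agent.Y123.GN.FPM (n := fun i => 2 * m i) (JJ β) B w (Sum.inr ()) (Pool.Agent.Y123.GN.PJ T) := by
      intro T hT hcT hTF
      exact Pool.Agent.Y123.GN.all_of_sta (n := fun i => 2 * m i) hQ ht2 hsta hPB hBd hT (by rw [← hper]; exact hcT) hTF
    refine ⟨?_, ?_⟩
    · intro T hT hcT hTr
      have hT'' := Pool.Agent.Y123.ST.subT_iff.1 hT
      obtain ⟨h5, h6⟩ := key T hT'' hcT (respecting_sub hT''.isUnit hTr)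
      rw [proj_eq hTr] at h5 h6
      rw [fibreProduct_eq] at h6
      exact ⟨Pool.Agent.Y123.ST.subT_iff.2 h5, h6⟩
    · have hΩ₀ := Pool.Agent.Y123.SR.OmS_om (K := K) hu
      refine ⟨_, hΩ₀, ?_, ?_⟩
      · rintro rfl
        exact omega_tate hKalg hΩ₀
      · have h5 := Pool.Agent.Y123.GN.pj_om (n := fun i => 2 * m i) (b₀ := Sum.inr ()) (w := w)
          (l := fun i => ((Real.log (t i) : ℝ) : ℂ)) (c := Pool.Agent.Y123.GN.cM (n := fun i => 2 * m i)
            (fun i => Pool.Agent.Y119.HY.QB (β i)) Ω t) hBd hJK hBK hu hcm (fun i => by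
          have h6 := Pool.Agent.Y123.GN.cM_form (n := fun i => 2 * m i) hQ Ω ht2 i
          rw [hPB] at h6
          exact h6) (fun T hT hcT hTF => by
          have h6 := key T hT (by rw [hper]; exact hcT) hTF
          exact ⟨h6.2, h6.1⟩) hΩ₀
        rw [fibreProduct_eq] at h5
        rw [hper]
        exact h5

end Pool.Agent.Results.MP_cbf1af_ag.HypergeometricTorsors
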